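import Pool.Agent.Helper87.HD.Stmts
import Pool.Agent.Helper15.T6.Stmts

set_option autoImplicit false

/-!
MP_2f9829_co, all degrees: bridge from the analytic core (`HD`) to the replica forms of
`Helper15/T6`: the maximum on real vectors and the real maximisers.
-/

open Finset

namespace Pool.Agent.Helper28.T6

open Pool.Agent.Helper15.T6
open Pool.Agent.Helper15.T4 (nsq)

/-- the two constants agree -/
theorem qq_eq (d : ℕ) : HD.qq d = qd d := by
  unfold HD.qq qd
  have h : Real.sqrt ((d : ℝ) ^ d) = Real.sqrt d ^ d := by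
    rw [Real.sqrt_eq_iff_mul_self_eq (by positivity) (by positivity), ← mul_pow,
      Real.mul_self_sqrt (by positivity)]
  rw [h]

/-- the transferred vector -/
noncomputable def tr {d m : ℕ} {J : Type} (e : J ≃ Fin m) (x : (J → Fin d) → ℝ) : HD.Ix d m → ℝ :=
  fun a => x (fun j => a (e j))

theorem tr_nsq {d m : ℕ} {J : Type} [Fintype J] [DecidableEq J] (e : J ≃ Fin m)
    (x : (J → Fin d) → ℝ) : ∑ a, tr e x a ^ 2 = nsq x := by
  unfold nsq
  refine Fintype.sum_equiv (Equiv.arrowCongr e.symm (Equiv.refl (Fin d))) _ _ ?_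
  intro a
  unfold tr
  have : (Equiv.arrowCongr e.symm (Equiv.refl (Fin d))) a = fun j => a (e j) := by
    ext j; simp [Equiv.arrowCongr]
  rw [this]

theorem tr_PP {d m : ℕ} {J : Type} [Fintype J] [DecidableEq J] (e : J ≃ Fin m)
    (x : (J → Fin d) → ℝ) : HD.PP d m (fun a => ((tr e x a : ℝ) : ℂ)) = ((PJ J x : ℝ) : ℂ) := by
  unfold HD.PP PJ TJ
  rw [Complex.ofReal_sum]
  refine Fintype.sum_equiv (Equiv.arrowCongr e.symm (Equiv.refl (Equiv.Perm (Fin d)))) _ _ ?_
  intro π
  have hπ : (Equiv.arrowCongr e.symm (Equiv.refl (Equiv.Perm (Fin d)))) π = fun j => π (e j) := by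
    funext j; simp [Equiv.arrowCongr]
  rw [hπ, Complex.ofReal_mul, Complex.ofReal_prod, Complex.ofReal_prod]
  congr 1
  · rw [← Equiv.prod_comp e]
    refine Finset.prod_congr rfl fun j _ => ?_
    push_cast
    rfl

theorem st_PMAXR (maxp : HD.ST_MAXP) : ST_PMAXR := by
  intro d hd J _ _ K hJ x
  have e : J ≃ Fin (2 * K) := Fintype.equivFinOfCardEq hJ
  have h := maxp d K (fun a => ((tr e x a : ℝ) : ℂ)) (by omega)
  rw [tr_PP, qq_eq] at h
  have h1 : ∑ a, ‖((tr e x a : ℝ) : ℂ)‖ ^ 2 = nsq x := by
    rw [← tr_nsq e x]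
    refine Finset.sum_congr rfl fun a _ => ?_
    rw [Complex.norm_real, Real.norm_eq_abs, sq_abs]
  rw [h1, Complex.norm_real, Real.norm_eq_abs, sq_abs] at h
  have hn : 0 ≤ nsq x := by rw [← h1]; positivity
  have hq : 0 ≤ qd d := by unfold qd; positivity
  refine abs_le_of_sq_le_sq ?_ (by positivity)
  rw [mul_pow]
  have h2 : (Real.sqrt (nsq x) ^ d) ^ 2 = nsq x ^ d := by
    rw [← pow_mul, mul_comm, pow_mul, Real.sq_sqrt hn]
  rw [h2]
  exact h

theorem st_UNIQR (real : HD.ST_REAL) : ST_UNIQR := by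
  intro d hd J _ _ K hJ x hx hP
  rcases Nat.eq_zero_or_pos K with hK | hK
  · subst hK
    have hE : IsEmpty J := by
      rw [← Fintype.card_eq_zero_iff]; simpa using hJ
    have hs : ∀ a b : J → Fin d, a = b := fun a b => funext fun j => (hE.false j).elim
    set a0 : J → Fin d := fun j => (hE.false j).elim with ha0
    have h1 : x a0 ^ 2 = 1 := by
      have h2 : nsq x = x a0 ^ 2 := by
        unfold nsq
        rw [Fintype.sum_eq_single a0 (fun b hb => absurd (hs b a0) hb)]
      rw [← h2, hx]
    have h3 : x a0 = 1 ∨ x a0 = -1 := by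
      have h4 : (x a0 - 1) * (x a0 + 1) = 0 := by linear_combination h1
      rcases mul_eq_zero.mp h4 with h | h
      · left; linarith
      · right; linarith
    refine ⟨if x a0 = 1 then 1 else -1, ?_, fun _ => 1, fun p => p.elim0, ?_⟩
    · refine ⟨fun p => p.1.elim0, fun j => (hE.false j).elim, fun p => p.1.elim0, fun j => (hE.false j).elim⟩
    · intro a
      rw [hs a a0]
      unfold pt
      simp only [Finset.univ_eq_empty, Finset.prod_empty, mul_one]
      rcases h3 with h | h
      · rw [if_pos h, h]; simp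
      · rw [if_neg (by rw [h]; norm_num), h]; simp
  · have e : J ≃ Fin (2 * K) := Fintype.equivFinOfCardEq hJ
    obtain ⟨e', O, hO, hpr⟩ := real d K (tr e x) hd hK (by rw [tr_nsq, hx]) (by
      rw [tr_PP, qq_eq, Complex.norm_real, Real.norm_eq_abs, hP])
    refine ⟨1, e'.trans e.symm, O, ?_, ?_⟩
    · intro p
      have h := hO p
      rw [Matrix.mem_orthogonalGroup_iff] at h
      exact h
    · intro a
      have h := hpr (fun i => a (e.symm i))
      have h2 : tr e x (fun i => a (e.symm i)) = x a := by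
        unfold tr
        congr 1
        funext j
        exact congrArg a (Equiv.symm_apply_apply e j)
      rw [h2] at h
      rw [h]
      unfold pt
      rw [Finset.prod_div_distrib, Finset.prod_const, Finset.card_univ, Fintype.card_fin]
      simp

end Pool.Agent.Helper28.T6
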