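import Pool.Agent.Helper28.T6.BRI
import Pool.Agent.Helper46.T6.Stmts

set_option autoImplicit false

/-!
MP_2f9829_co, all degrees: the maximum on real vectors and the real maximisers in the form of
`Helper46/T6/Stmts` (rows L_PMAXR, L_UNIQ).
-/

open Finset

namespace Pool.Agent.Helper28.T6

open Pool.Agent.Helper15.T6
open Pool.Agent.Helper15.T4 (nsq)

theorem st_LPMAXR (maxp : HD.ST_MAXP) : Pool.Agent.Helper46.T6.ST_PMAXR := by
  intro d hd J _ _ K hJ x
  have e : J ≃ Fin (2 * K) := Fintype.equivFinOfCardEq hJ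
  have h := maxp d K (fun a => ((tr e x a : ℝ) : ℂ)) hd
  rw [tr_PP, qq_eq] at h
  have h1 : ∑ a, ‖((tr e x a : ℝ) : ℂ)‖ ^ 2 = nsq x := by
    rw [← tr_nsq e x]
    refine Finset.sum_congr rfl fun a _ => ?_
    rw [Complex.norm_real, Real.norm_eq_abs, sq_abs]
  rw [h1, Complex.norm_real, Real.norm_eq_abs, sq_abs] at h
  exact h

theorem st_LUNIQ (real : HD.ST_REAL) : Pool.Agent.Helper46.T6.ST_UNIQ := by
  intro d hd K J _ _ hJ x hx hP
  obtain ⟨s, φ, O, hO, h⟩ := st_UNIQR real d hd J K hJ x hx hP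
  exact ⟨s, φ, O, hO, h⟩

end Pool.Agent.Helper28.T6
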